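import Pool.Agent.H31.QS1

open Pool.Agent.H31.QC Pool.Agent.H31.QS

universe u

theorem Pool.Agent.Results.MP_76989b_gt.Main.result :
    (∃ (X : Type) (_ : TopologicalSpace X), T2Space X ∧ S1 X ∧ S1strong X ∧
      ¬ FrechetUrysohnSpace {f : X → ℝ // Quasi f}) ∧
    ∀ (X : Type u) [TopologicalSpace X] [T2Space X], OpenWhyburn X → S1weak X →
      FrechetUrysohnSpace {f : X → ℝ // Quasi f} :=
  ⟨q1, fun _ _ _ => q2⟩
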